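import Pool.Agent.Helper65.BR.Goals
import Pool.Agent.Helper11.Ram.MCOR

/-!
# Packet BR-WORD: the steps on numbers and on words
-/

namespace Pool.Agent.Helper12.BR

open Pool.Agent.Helper65.LinSpace Pool.Agent.Helper78.Mpc Pool.Agent.Helper28.Ram
open Pool.Agent.Helper65.OH (letW)
open Pool.Agent.Helper65.BR
open Pool.Agent.Helper11.Ram (num_eq_bval)

theorem lwN_codeO (o : Option Bool) : lwN (codeO o) = num (letW o) := by
  rcases o with _ | _ | _ <;> rfl

theorem bvalN_num (u : List Bool) : bvalN (num u) = bval u := by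
  unfold bvalN
  rw [log_num, num_eq_bval]
  omega

theorem catN_zero_left (b : ℕ) : catN 0 b = 0 := rfl

theorem catN_zero_right (a : ℕ) : catN a 0 = 0 := by
  by_contra h
  exact (catN_eq_zero h).2 rfl

theorem sdN_zero : sdN 0 = 0 := rfl

theorem length_letW (o : Option Bool) : (letW o).length = 2 := rfl

section

variable {A : BM} {P : Prm} {w y : List Bool}

theorem adN_eq (hC : CodB A P) {u : List Bool} (hu : u.length ≤ P.S) :
    P.adN (num u) = if (A.addr u).length ≤ P.S then num (A.addr u) else 0 := hC.eA u hu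

theorem blN_eq (hC : CodB A P) {u : List Bool} (hu : u.length ≤ P.S) :
    P.blN (num u) = if (A.blk u).length ≤ P.Z then num (A.blk u) else 0 := hC.eB u hu

theorem rdg_iff (hC : CodB A P) {u : List Bool} (hu : u.length ≤ P.S)
    (hb : (A.blk u).length ≤ P.Z) : P.rdg (num u) ≠ 0 ↔ (A.blk u).head? = some true := by
  unfold Prm.rdg
  rw [blN_eq hC hu, if_pos hb, ← accN_num]
  have := accN_le (num (A.blk u))
  omega

theorem inN_zero (q : ℕ) : P.inN q 0 = 0 := by
  unfold Prm.inN
  rw [catN_zero_right, catN_zero_right, catN_zero_right]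

/-- The new state, if all is within the bounds. -/
theorem nx_eq (hC : CodB A P) (hx : P.x = num w) (hy : P.y = num y) {u z : List Bool} {v : ℕ}
    (hu : u.length ≤ P.S) (hacc : accN (num u) = 0) (ha : (A.addr u).length ≤ P.S)
    (hb : (A.blk u).length ≤ P.Z) (hz : z.length ≤ P.H) (hv : ifz (P.rdg (num u)) 1 v = num z) :
    P.nxN (num u) v = if (A.nx w y u z).length ≤ P.S then num (A.nx w y u z) else 0 := by
  have h1 : P.inN (num u) (num z) =
      num (sd u ++ (letW w[bval (A.addr u)]? ++ (letW y[bval (A.addr u)]? ++ z))) := by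
    unfold Prm.inN
    rw [adN_eq hC hu, if_pos ha, bvalN_num, hx, hy, letN_num, letN_num, lwN_codeO, lwN_codeO,
      sdN_num, catN_num, catN_num, catN_num]
  unfold Prm.nxN
  rw [hacc, ifz_zero, adN_eq hC hu, if_pos ha, ifz_ne (num_pos _).ne', blN_eq hC hu, if_pos hb,
    ifz_ne (num_pos _).ne', hv, h1]
  refine hC.eN _ ?_
  simp only [List.length_append, length_sd, length_letW]
  omega

/-- The new content of a block. -/
theorem wr_eq (hC : CodB A P) {r x c : List Bool} (hr : r.length ≤ P.S) (hx : x.length ≤ P.Z)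
    (hc : c.length ≤ P.H) : P.wrN (num r) (num x) (num c) =
      if (A.write (sd r ++ (sd x ++ c))).length ≤ P.H then
        num (A.write (sd r ++ (sd x ++ c))) else 0 := by
  unfold Prm.wrN
  rw [sdN_num, sdN_num, catN_num, catN_num]
  refine hC.eW _ ?_
  simp only [List.length_append, length_sd]
  omega

theorem wr_zero (r x : ℕ) : P.wrN r x 0 = 0 := by
  unfold Prm.wrN
  rw [catN_zero_right, catN_zero_right]
  rfl

theorem head_of_acc {u : List Bool} (h : accN (num u) ≠ 0) : u.head? = some true := by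
  rw [← accN_num]
  have := accN_le (num u)
  omega

theorem get_eq (hC : CodB A P) {u : List Bool} {M : List Bool → List Bool}
    (hu : u.length ≤ P.S) (hb : (A.blk u).length ≤ P.Z) :
    (P.rdg (num u) ≠ 0 ∧ A.get u M = M (A.blk u) ∧ P.rdN (num u) = num (A.blk u)) ∨
      (P.rdg (num u) = 0 ∧ A.get u M = []) := by
  have h1 := rdg_iff hC hu hb
  by_cases h : P.rdg (num u) = 0
  · right
    refine ⟨h, ?_⟩
    unfold BM.get
    rw [if_neg]
    intro h2
    exact h1.2 h2 h
  · left
    refine ⟨h, ?_, ?_⟩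
    · unfold BM.get
      rw [if_pos (h1.1 h)]
    · unfold Prm.rdN
      rw [ifz_ne h, blN_eq hC hu, if_pos hb]

/-- The invariant. -/
def Rel (A : BM) (P : Prm) (w y p : List Bool) (c : ℕ × (ℕ → ℕ)) (t : ℕ) : Prop :=
  c.1 = num (A.conf w y p t).1 ∧ (A.conf w y p t).1.length ≤ P.S ∧
    ∀ x : List Bool, x.length ≤ P.Z → c.2 (num x) = 0 ∨
      (c.2 (num x) = num ((A.conf w y p t).2 x) ∧ ((A.conf w y p t).2 x).length ≤ P.H)

theorem nx_zero (v : ℕ) : P.nxN 0 v = 0 := rfl

theorem rel_step (hC : CodB A P) (hx : P.x = num w) (hy : P.y = num y) {p : List Bool}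
    {c : ℕ × (ℕ → ℕ)} {t : ℕ} (h : Rel A P w y p c t) :
    (P.stp c).1 = 0 ∨ ∃ t, Rel A P w y p (P.stp c) t := by
  obtain ⟨h1, h2, h3⟩ := h
  by_cases hacc : accN c.1 = 0
  · by_cases h0 : (P.stp c).1 = 0
    · exact Or.inl h0
    right
    have e0 : (P.stp c).1 = P.nxN c.1 (c.2 (P.rdN c.1)) := rfl
    rw [e0] at h0
    have h0' := h0
    unfold Prm.nxN at h0'
    rw [hacc, ifz_zero] at h0'
    have ha0 : P.adN c.1 ≠ 0 := by
      intro h
      rw [h, ifz_zero] at h0'
      exact h0' rfl
    rw [ifz_ne ha0] at h0'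
    have hb0 : P.blN c.1 ≠ 0 := by
      intro h
      rw [h, ifz_zero] at h0'
      exact h0' rfl
    rw [ifz_ne hb0] at h0'
    have ha : (A.addr (A.conf w y p t).1).length ≤ P.S := by
      by_contra hcon
      rw [h1, adN_eq hC h2, if_neg hcon] at ha0
      exact ha0 rfl
    have hb : (A.blk (A.conf w y p t).1).length ≤ P.Z := by
      by_contra hcon
      rw [h1, blN_eq hC h2, if_neg hcon] at hb0
      exact hb0 rfl
    have hv0 : ifz (P.rdg c.1) 1 (c.2 (P.rdN c.1)) ≠ 0 := by
      intro h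
      rw [h, inN_zero] at h0'
      exact h0' rfl
    have hv : ifz (P.rdg c.1) 1 (c.2 (P.rdN c.1)) =
        num (A.get (A.conf w y p t).1 (A.conf w y p t).2) ∧
        (A.get (A.conf w y p t).1 (A.conf w y p t).2).length ≤ P.H := by
      rcases get_eq (M := (A.conf w y p t).2) hC h2 hb with ⟨g1, g2, g3⟩ | ⟨g1, g2⟩
      · rw [← h1] at g1 g3
        rw [ifz_ne g1, g3] at hv0
        rw [ifz_ne g1, g2, g3]
        rcases h3 _ hb with h4 | ⟨h4, h5⟩
        · exact absurd h4 hv0
        · exact ⟨h4, h5⟩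
      · rw [← h1] at g1
        rw [g1, ifz_zero, g2]
        exact ⟨rfl, Nat.zero_le _⟩
    have hn := nx_eq (w := w) (y := y) (v := c.2 (P.rdN c.1)) hC hx hy h2 (h1 ▸ hacc) ha hb hv.2
      (h1 ▸ hv.1)
    rw [← h1] at hn
    have hl : (A.nx w y (A.conf w y p t).1
        (A.get (A.conf w y p t).1 (A.conf w y p t).2)).length ≤ P.S := by
      by_contra hcon
      rw [if_neg hcon] at hn
      exact h0 hn
    rw [if_pos hl] at hn
    refine ⟨t + 1, hn, hl, fun x hx' => ?_⟩
    have e1 : (P.stp c).2 (num x) = P.wrN (P.nxN c.1 (c.2 (P.rdN c.1))) (num x) (c.2 (num x)) := by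
      show ifz (accN c.1) _ _ = _
      rw [hacc, ifz_zero]
    rw [e1, hn]
    rcases h3 x hx' with h4 | ⟨h4, h5⟩
    · left
      rw [h4, wr_zero]
    · rw [h4, wr_eq hC hl hx' h5]
      by_cases h6 : (A.write (sd (A.nx w y (A.conf w y p t).1
        (A.get (A.conf w y p t).1 (A.conf w y p t).2)) ++
          (sd x ++ (A.conf w y p t).2 x))).length ≤ P.H
      · right
        rw [if_pos h6]
        exact ⟨rfl, h6⟩
      · left
        rw [if_neg h6]
  · right
    refine ⟨t, ?_, h2, fun x hx' => ?_⟩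
    · show P.nxN c.1 _ = _
      unfold Prm.nxN
      rw [ifz_ne hacc, h1, capN_num h2]
    · have e1 : (P.stp c).2 (num x) = c.2 (num x) := by
        show ifz (accN c.1) _ _ = _
        rw [ifz_ne hacc]
      rw [e1]
      exact h3 x hx'

theorem run_rel (hC : CodB A P) (hx : P.x = num w) (hy : P.y = num y) {p : List Bool}
    (hp : P.p = num p) (hpl : p.length ≤ P.S) (j : ℕ) :
    (P.run j).1 = 0 ∨ ∃ t, Rel A P w y p (P.run j) t := by
  induction j with
  | zero =>
    have h1 : (P.run 0).1 = if (A.start p).length ≤ P.S then num (A.start p) else 0 := by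
      show P.s0 = _
      unfold Prm.s0
      rw [hp]
      exact hC.eS p hpl
    by_cases h2 : (A.start p).length ≤ P.S
    · right
      rw [if_pos h2] at h1
      refine ⟨0, h1, h2, fun x _ => Or.inr ⟨rfl, Nat.zero_le _⟩⟩
    · left
      rw [h1, if_neg h2]
  | succ j ih =>
    have e : P.run (j + 1) = P.stp (P.run j) := rfl
    rw [e]
    rcases ih with h | ⟨t, h⟩
    · left
      show P.nxN (P.run j).1 _ = 0
      rw [h]
      rfl
    · exact rel_step hC hx hy h

theorem run_cmp (hC : CodB A P) (hx : P.x = num w) (hy : P.y = num y) {p : List Bool}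
    (hp : P.p = num p) (hpl : p.length ≤ P.S) {r : ℕ} (hF : A.Fits w y p r P.S P.Z P.H)
    (hacc : ∀ t < r, ¬A.AcceptsAt w y p t) (t : ℕ) (ht : t ≤ r) :
    (P.run t).1 = num (A.conf w y p t).1 ∧ ∀ x : List Bool, x.length ≤ P.Z →
      (P.run t).2 (num x) = num ((A.conf w y p t).2 x) := by
  induction t with
  | zero =>
    have h1 : (P.run 0).1 = if (A.start p).length ≤ P.S then num (A.start p) else 0 := by
      show P.s0 = _
      unfold Prm.s0
      rw [hp]
      exact hC.eS p hpl
    have h2 : (A.start p).length ≤ P.S := (hF 0 ht).1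
    rw [if_pos h2] at h1
    exact ⟨h1, fun x _ => rfl⟩
  | succ t ih =>
    obtain ⟨h1, h3⟩ := ih (by omega)
    obtain ⟨h2, ha, hb, hM⟩ := hF t (by omega)
    obtain ⟨h2', -, -, hM'⟩ := hF (t + 1) ht
    have hac : accN (P.run t).1 = 0 := by
      by_contra hcon
      rw [h1] at hcon
      exact hacc t (by omega) (head_of_acc hcon)
    have hv : ifz (P.rdg (P.run t).1) 1 ((P.run t).2 (P.rdN (P.run t).1)) =
        num (A.get (A.conf w y p t).1 (A.conf w y p t).2) ∧
        (A.get (A.conf w y p t).1 (A.conf w y p t).2).length ≤ P.H := by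
      rcases get_eq (M := (A.conf w y p t).2) hC h2 hb with ⟨g1, g2, g3⟩ | ⟨g1, g2⟩
      · rw [← h1] at g1 g3
        rw [ifz_ne g1, g3, g2, h3 _ hb]
        exact ⟨rfl, hM _ hb⟩
      · rw [← h1] at g1
        rw [g1, ifz_zero, g2]
        exact ⟨rfl, Nat.zero_le _⟩
    have hn := nx_eq (w := w) (y := y) (v := (P.run t).2 (P.rdN (P.run t).1)) hC hx hy h2
      (h1 ▸ hac) ha hb hv.2 (h1 ▸ hv.1)
    rw [← h1] at hn
    have hl : (A.nx w y (A.conf w y p t).1
        (A.get (A.conf w y p t).1 (A.conf w y p t).2)).length ≤ P.S := h2'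
    rw [if_pos hl] at hn
    refine ⟨hn, fun x hx' => ?_⟩
    have e1 : (P.run (t + 1)).2 (num x) =
        P.wrN (P.nxN (P.run t).1 ((P.run t).2 (P.rdN (P.run t).1))) (num x)
          ((P.run t).2 (num x)) := by
      show ifz (accN (P.run t).1) _ _ = _
      rw [hac, ifz_zero]
    have h6 : (A.write (sd (A.nx w y (A.conf w y p t).1
        (A.get (A.conf w y p t).1 (A.conf w y p t).2)) ++
          (sd x ++ (A.conf w y p t).2 x))).length ≤ P.H := hM' x hx'
    rw [e1, hn, h3 x hx', wr_eq hC hl hx' (hM x hx'), if_pos h6]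
    rfl

end

/-- Packet BR-WORD. -/
theorem WORD : WORD_stmt where
  snd := by
    intro A P w y p hC hx hy hp hpl j hj
    rcases run_rel hC hx hy hp hpl j with h | ⟨t, h1, -, -⟩
    · rw [h] at hj
      exact absurd rfl hj
    · rw [h1] at hj
      exact ⟨t, head_of_acc hj⟩
  cmp := by
    intro A P w y p hC hx hy hp hpl r hF hacc t ht
    have h1 := (run_cmp hC hx hy hp hpl hF hacc t ht).1
    refine ⟨h1, ?_⟩
    rw [h1]
    exact rdg_iff hC (hF t ht).1 (hF t ht).2.2.1

end Pool.Agent.Helper12.BR
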